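import Pool.Agent.N441.CD.Core

/-!
# The codegree Turán density of the complete `k`-graph on `k + 1` vertices tends to `1`

In particular it is larger than `1 / 2` for all large `k`.

Proof.  The complement of the hypergraph is a family `Q` of `k`-sets such that every `(k+1)`-set
contains a member of `Q`, while every `(k-1)`-set is contained in few members of `Q`.  The vertices
are divided into `M` classes of equal size.  By Hall's theorem one can choose, for every vector
`ξ : Fin M → ℕ` with sum `k + 1`, a class `r ξ` with `ξ (r ξ)` large such that for every `σ` with sum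
`k - 1` at most two `i` satisfy `r (σ + 2 e_i) = i`.  A `(k+1)`-set `X` with `ξ_i` points in class `i`
contains a member of `Q` of the form `X \ {v}`, `v` in the class `r ξ`: the points of the classes
are coloured with `p` colours from `ZMod p`, the colouring of a class depends at random on the part
of the set outside this class, and `e` belongs to `Q` if for some `i` with
`r (type e + e_i) = i` the colours of the points of `e` in class `i` have sum zero or do not
comprise all colours.  If `v` is added to a `(k-1)`-set `T`, and `T ∪ {v}` is in `Q` with the index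
`i`, then either `v` is in class `i`, which is possible for at most two `i`, or the colouring
of class `i` is changed by `v`, and a random colouring is bad with small probability only.
-/

set_option autoImplicit false

open Finset Filter Topology

namespace Pool.Agent.Results.MP_af2786_co.DensityTendsToOne

/-- A `k`-graph on the vertex set `Fin n` is a set `H` of `k`-element subsets of `Fin n`. -/
def IsUniform (k : ℕ) {n : ℕ} (H : Finset (Finset (Fin n))) : Prop :=
  ∀ e ∈ H, e.card = k

/-- `H` contains a copy of `F` if some injection of the vertex sets sends every edge of `F` to an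
edge of `H`. -/
def ContainsCopy {m n : ℕ} (F : Finset (Finset (Fin m))) (H : Finset (Finset (Fin n))) : Prop :=
  ∃ f : Fin m ↪ Fin n, ∀ e ∈ F, e.map f ∈ H

/-- The degree of a set `T` of vertices: the number of `v` outside `T` with `T ∪ {v} ∈ H`. -/
def degree {n : ℕ} (H : Finset (Finset (Fin n))) (T : Finset (Fin n)) : ℕ :=
  #{v : Fin n | v ∉ T ∧ insert v T ∈ H}

/-- The minimum codegree: the least degree of a set of `k - 1` vertices. -/
noncomputable def minCodegree (k : ℕ) {n : ℕ} (H : Finset (Finset (Fin n))) : ℕ :=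
  sInf {d : ℕ | ∃ T : Finset (Fin n), T.card = k - 1 ∧ degree H T = d}

/-- The largest minimum codegree of a `k`-graph on `n` vertices that contains no copy of `F`. -/
noncomputable def coex (k n : ℕ) {m : ℕ} (F : Finset (Finset (Fin m))) : ℕ :=
  sSup {d : ℕ | ∃ H : Finset (Finset (Fin n)),
    IsUniform k H ∧ ¬ ContainsCopy F H ∧ minCodegree k H = d}

/-- The codegree Turán density of the `k`-graph `F`. -/
noncomputable def codegreeDensity (k : ℕ) {m : ℕ} (F : Finset (Finset (Fin m))) : ℝ :=
  limsup (fun n : ℕ => (coex k n F : ℝ) / (n : ℝ)) atTop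

/-- The complete `k`-graph on `k + 1` vertices: all `k`-subsets are edges. -/
def complete (k : ℕ) : Finset (Finset (Fin (k + 1))) :=
  Finset.univ.powersetCard k

theorem minCodegree_le (k : ℕ) {n : ℕ} (H : Finset (Finset (Fin n))) : minCodegree k H ≤ n := by
  unfold minCodegree
  rcases Set.eq_empty_or_nonempty
    {d : ℕ | ∃ T : Finset (Fin n), T.card = k - 1 ∧ degree H T = d} with h | h
  · rw [h, Nat.sInf_empty]
    exact Nat.zero_le _
  · obtain ⟨T, _, hT⟩ := Nat.sInf_mem h
    rw [← hT]
    unfold degree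
    exact (card_filter_le _ _).trans (by rw [card_univ, Fintype.card_fin])

theorem bdd (k n : ℕ) {m : ℕ} (F : Finset (Finset (Fin m))) :
    BddAbove {d : ℕ | ∃ H : Finset (Finset (Fin n)),
      IsUniform k H ∧ ¬ ContainsCopy F H ∧ minCodegree k H = d} := by
  refine ⟨n, ?_⟩
  rintro d ⟨H, _, _, rfl⟩
  exact minCodegree_le k H

theorem coex_le (k n : ℕ) {m : ℕ} (F : Finset (Finset (Fin m))) : coex k n F ≤ n := by
  unfold coex
  rcases Set.eq_empty_or_nonempty {d : ℕ | ∃ H : Finset (Finset (Fin n)),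
      IsUniform k H ∧ ¬ ContainsCopy F H ∧ minCodegree k H = d} with h | h
  · rw [h, csSup_empty]
    exact Nat.zero_le _
  · obtain ⟨H, _, _, hH⟩ := Nat.sSup_mem h (bdd k n F)
    rw [← hH]
    exact minCodegree_le k H

theorem ratio_le (k n : ℕ) {m : ℕ} (F : Finset (Finset (Fin m))) :
    (coex k n F : ℝ) / (n : ℝ) ≤ 1 := by
  apply div_le_one_of_le₀ _ (Nat.cast_nonneg n)
  exact_mod_cast coex_le k n F

theorem exists_s (p : ℕ) (hp : 2 ≤ p) :
    ∃ s₀ : ℕ, 1 ≤ s₀ ∧ ∀ s, s₀ ≤ s → (p - 1) ^ s * p ^ 2 ≤ p ^ s := by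
  have hp0 : (0 : ℝ) < (p : ℝ) := by exact_mod_cast (by omega : 0 < p)
  have h1 : Tendsto (fun s : ℕ => (((p - 1 : ℕ) : ℝ) / (p : ℝ)) ^ s) atTop (𝓝 0) := by
    apply tendsto_pow_atTop_nhds_zero_of_lt_one (by positivity)
    rw [div_lt_one hp0]
    exact_mod_cast (by omega : p - 1 < p)
  have h2 : ∀ᶠ s : ℕ in atTop, (((p - 1 : ℕ) : ℝ) / (p : ℝ)) ^ s < 1 / (p : ℝ) ^ 2 :=
    (tendsto_order.1 h1).2 _ (by positivity)
  obtain ⟨s₀, hs⟩ := eventually_atTop.1 h2
  refine ⟨s₀ + 1, by omega, fun s h => ?_⟩
  have h3 := hs s (by omega)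
  rw [div_pow, div_lt_div_iff₀ (by positivity) (by positivity)] at h3
  have h4 : (((p - 1) ^ s * p ^ 2 : ℕ) : ℝ) ≤ ((p ^ s : ℕ) : ℝ) := by
    push_cast
    linarith
  exact_mod_cast h4

theorem not_contains {k n : ℕ} {H : Finset (Finset (Fin n))}
    (h : ∀ X : Finset (Fin n), X.card = k + 1 → ∃ e ⊆ X, e.card = k ∧ e ∉ H) :
    ¬ ContainsCopy (complete k) H := by
  rintro ⟨f, hf⟩
  obtain ⟨e, he1, he2, he3⟩ := h (univ.map f) (by rw [card_map, card_univ, Fintype.card_fin])
  apply he3
  obtain ⟨u, _, rfl⟩ := subset_map_iff.1 he1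
  apply hf
  unfold complete
  rw [mem_powersetCard]
  refine ⟨subset_univ _, ?_⟩
  rw [card_map] at he2
  exact he2

theorem lower (ε : ℝ) (hε : 0 < ε) : ∃ k₀ : ℕ, ∀ k, k₀ ≤ k →
    1 - ε ≤ codegreeDensity k (complete k) := by
  obtain ⟨M, hM⟩ := exists_nat_gt (6 / ε)
  have hM0 : 0 < M := by
    rcases Nat.eq_zero_or_pos M with h | h
    · subst h
      have : (0 : ℝ) < 6 / ε := by positivity
      simp only [Nat.cast_zero] at hM
      linarith
    · exact h
  have hMR : (0 : ℝ) < (M : ℝ) := by exact_mod_cast hM0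
  obtain ⟨s₀, hs, hp⟩ := exists_s (2 * 8 ^ (M ^ 2)) (by
    have : 0 < 8 ^ (M ^ 2) := by positivity
    omega)
  refine ⟨2 * M * (s₀ + 2), fun k hk => ?_⟩
  unfold codegreeDensity
  have hbound : ∀ᶠ n : ℕ in atTop, 1 - ε ≤ (coex k n (complete k) : ℝ) / (n : ℝ) := by
    obtain ⟨N, hN⟩ := exists_nat_gt (2 * ((k : ℝ) + 2) / ε)
    filter_upwards [eventually_ge_atTop (max N (k + 1))] with n hn
    have hn1 : N ≤ n := le_trans (le_max_left _ _) hn
    have hn2 : k + 1 ≤ n := le_trans (le_max_right _ _) hn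
    have hnR : (0 : ℝ) < (n : ℝ) := by exact_mod_cast (by omega : 0 < n)
    obtain ⟨H, hH1, hH2, hH3⟩ := Pool.Agent.N441.CD.core (M := M) (n := n) (k := k)
      (L := M ^ 2) (s₀ := s₀) hM0 hs (by positivity) hk hp
    have h1 : minCodegree k H ≤ coex k n (complete k) :=
      le_csSup (bdd k n (complete k)) ⟨H, hH1, not_contains hH2, rfl⟩
    have h2 : n ≤ minCodegree k H + (2 * (n / M + 1) + M * (n / M ^ 2)) + k := by
      have hne : {d : ℕ | ∃ T : Finset (Fin n), T.card = k - 1 ∧ degree H T = d}.Nonempty := by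
        obtain ⟨T, _, hT⟩ := exists_subset_card_eq (s := (univ : Finset (Fin n))) (n := k - 1)
          (by rw [card_univ, Fintype.card_fin]; omega)
        exact ⟨_, T, hT, rfl⟩
      obtain ⟨T, hT1, hT2⟩ := Nat.sInf_mem hne
      have h3 := hH3 T hT1
      have h4 : minCodegree k H = degree H T := hT2.symm
      rw [h4]
      unfold degree
      convert h3 using 6
    have h3 : (n : ℝ) ≤ (coex k n (complete k) : ℝ) +
        (2 * ((n : ℝ) / M + 1) + M * ((n : ℝ) / (M : ℝ) ^ 2)) + k := by
      have e1 : (n : ℝ) ≤ ((minCodegree k H + (2 * (n / M + 1) + M * (n / M ^ 2)) + k : ℕ) : ℝ) := by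
        exact_mod_cast h2
      have e2 : (minCodegree k H : ℝ) ≤ (coex k n (complete k) : ℝ) := by exact_mod_cast h1
      have e3 : ((n / M : ℕ) : ℝ) ≤ (n : ℝ) / M := Nat.cast_div_le
      have e4 : ((n / M ^ 2 : ℕ) : ℝ) ≤ (n : ℝ) / (M : ℝ) ^ 2 := by
        have := Nat.cast_div_le (α := ℝ) (m := n) (n := M ^ 2)
        push_cast at this
        exact this
      have e5 : (M : ℝ) * ((n / M ^ 2 : ℕ) : ℝ) ≤ M * ((n : ℝ) / (M : ℝ) ^ 2) :=
        mul_le_mul_of_nonneg_left e4 hMR.le
      push_cast at e1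
      linarith
    have h4 : (M : ℝ) * ((n : ℝ) / (M : ℝ) ^ 2) = (n : ℝ) / M := by
      field_simp
    rw [h4] at h3
    have h5 : 3 * ((n : ℝ) / M) ≤ ε / 2 * n := by
      have : 6 < ε * M := by
        rw [div_lt_iff₀ hε] at hM
        linarith
      rw [← mul_div_assoc, div_le_iff₀ hMR]
      nlinarith
    have h6 : (k : ℝ) + 2 ≤ ε / 2 * n := by
      have e1 : (N : ℝ) ≤ (n : ℝ) := by exact_mod_cast hn1
      have e2 : 2 * ((k : ℝ) + 2) / ε < (n : ℝ) := lt_of_lt_of_le hN e1
      rw [div_lt_iff₀ hε] at e2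
      linarith
    rw [le_div_iff₀ hnR]
    linarith
  exact le_limsup_of_frequently_le hbound.frequently
    (isBoundedUnder_of ⟨1, fun n => ratio_le k n (complete k)⟩)

theorem upper (k : ℕ) : codegreeDensity k (complete k) ≤ 1 := by
  unfold codegreeDensity
  refine limsup_le_of_le ?_ (Eventually.of_forall fun n => ratio_le k n (complete k))
  exact isCoboundedUnder_le_of_le atTop (x := 0) fun n => by positivity

/-- The codegree Turán density of the complete `k`-graph on `k + 1` vertices tends to `1`. -/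
theorem result : Tendsto (fun k : ℕ => codegreeDensity k (complete k)) atTop (𝓝 1) := by
  rw [Metric.tendsto_atTop]
  intro ε hε
  obtain ⟨k₀, hk₀⟩ := lower (ε / 2) (by positivity)
  refine ⟨k₀, fun k hk => ?_⟩
  have h1 := hk₀ k hk
  have h2 := upper k
  rw [Real.dist_eq, abs_lt]
  constructor <;> linarith

end Pool.Agent.Results.MP_af2786_co.DensityTendsToOne
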